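import Pool.Agent.V7H96.NarrowReg

set_option autoImplicit false

/-!
# Narrow progressions of regular points in arbitrary sets of prime triplets, and in every colouring of
# the almost prime triplets

Let `a` be `2` or `4`. `R a r` is the set of the `n` for which all prime factors of `n`, `n + a` and
`n + 6` are larger than `n ^ (1 / r)`; it contains all prime triplets `(n, n + a, n + 6)`.
`Al a M n₀ r` is the set of the `n ≡ n₀ (mod M)` in `R a r` for which `n`, `n + a` and `n + 6` have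
at most `r` prime factors. Let `0 < θ ≤ 1`.

* In every short interval `(X, X + Y]`, `Y ≥ X ^ θ`, there are at least `κ Y / log ^ 3 X` elements of
  `Al a M n₀ r`.
* Let `A` be an ARBITRARY subset of `R a r`, for example the set of all prime triplets. For every
  `l`, all but `ε Y / log ^ 3 X` of the elements of `A` in `(X, X + Y]` are terms of an arithmetic
  progression of `l` elements of `A` with difference at most a fixed power of `log X`, ALL of whose
  terms are regular points of `A`: the elements of `A` in ALL intervals of length between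
  `log ^ 3 X / c` and `Y` around them have the right order, and constant density up to `δ` at all but
  `B` dyadic scales. The power of the logarithm does not depend on `δ`.
* In every colouring of `Al a M n₀ r` with `K` colours, also if the colouring depends on `X` and `Y`,
  there is a colour for which a positive proportion of the expected number of elements of
  `(X, X + Y]` are terms of such progressions, of `l` terms of this colour, all of them regular
  points of the colour class. For instance the colour of `n` can be the vector of the three numbers of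
  prime factors of `n`, `n + a` and `n + 6`.

`N`, `RightOrder`, `ConstantDensity`, `badScales` and `Irregular` are defined in
`Pool/Agent/TH977/PW/Hered.lean`, `Good` and `Bad` in `Pool/Agent/V7H96/NarrowReg.lean`.
-/

namespace Pool.Agent.Results.MP_dddec0_nt.NarrowRegularColouringsH96

open Finset Filter
open Pool.Agent.TH977.PW (N)
open Pool.Agent.V7H96.NR (Good Bad)

/-- All prime factors of `n`, `n + a`, `n + 6` are larger than `n ^ (1 / r)`. -/
def R (a r : ℕ) : Set ℕ :=
  {n | ∀ h ∈ ({0, a, 6} : Finset ℕ), ∀ p : ℕ, p.Prime → p ∣ n + h → (n : ℝ) ^ (1 / (r : ℝ)) < (p : ℝ)}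

/-- The `n ≡ n₀ (mod M)` in `R a r` for which `n`, `n + a`, `n + 6` have at most `r` prime factors. -/
def Al (a M n₀ r : ℕ) : Set ℕ :=
  {n | n ∈ R a r ∧ n % M = n₀ % M ∧
    ∀ h ∈ ({0, a, 6} : Finset ℕ), (n + h).primeFactorsList.length ≤ r}

/-- no local obstruction -/
lemma adm (a : ℕ) (ha : a = 2 ∨ a = 4) (p : ℕ) (hp : p.Prime) :
    ∃ m : ℕ, ∀ h ∈ ({0, a, 6} : Finset ℕ), ¬ p ∣ m + h := by
  rcases ha with rfl | rfl
  · rcases lt_or_ge p 30 with h30 | h30
    · refine ⟨101, fun h hh hd => ?_⟩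
      simp only [mem_insert, mem_singleton] at hh
      have := (Nat.prime_dvd_prime_iff_eq hp
        (by rcases hh with rfl | rfl | rfl <;> norm_num)).1 hd
      omega
    · refine ⟨5, fun h hh hd => ?_⟩
      simp only [mem_insert, mem_singleton] at hh
      have := Nat.le_of_dvd (by omega) hd
      omega
  · rcases lt_or_ge p 30 with h30 | h30
    · refine ⟨37, fun h hh hd => ?_⟩
      simp only [mem_insert, mem_singleton] at hh
      have := (Nat.prime_dvd_prime_iff_eq hp
        (by rcases hh with rfl | rfl | rfl <;> norm_num)).1 hd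
      omega
    · refine ⟨7, fun h hh hd => ?_⟩
      simp only [mem_insert, mem_singleton] at hh
      have := Nat.le_of_dvd (by omega) hd
      omega

/-- **Narrow progressions of regular points at prime triplets.** -/
theorem result (a : ℕ) (ha : a = 2 ∨ a = 4) (M n₀ : ℕ) (hM : 0 < M)
    (hcop : Nat.Coprime (n₀ * (n₀ + a) * (n₀ + 6)) M) (θ : ℝ) (hθ : 0 < θ) (hθ1 : θ ≤ 1) :
    ∃ r₀ : ℕ, 2 ≤ r₀ ∧ ∀ r : ℕ, r₀ ≤ r →
      (∀ n : ℕ, n.Prime → (n + a).Prime → (n + 6).Prime → n ∈ R a r) ∧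
      (∃ κ : ℝ, 0 < κ ∧ ∀ᶠ X : ℕ in atTop, ∀ Y : ℕ, (X : ℝ) ^ θ ≤ Y → Y ≤ X →
        κ * Y / Real.log X ^ 3 ≤ N (Al a M n₀ r) X (X + Y)) ∧
      (∀ l : ℕ, 2 ≤ l → ∀ ε : ℝ, 0 < ε → ∃ c : ℝ, 0 < c ∧ ∃ D : ℕ, ∀ δ : ℝ, 0 < δ → ∃ B : ℕ,
        ∀ᶠ X : ℕ in atTop, ∀ Y : ℕ, (X : ℝ) ^ θ ≤ Y → 2 * Y ≤ X → ∀ A : Set ℕ, A ⊆ R a r →
          (N (Bad A 3 l (Real.log X ^ D) c δ B X Y) X (X + Y) : ℝ) ≤ ε * Y / Real.log X ^ 3) ∧
      (∀ l : ℕ, 2 ≤ l → ∀ K : ℕ, 0 < K → ∃ κ : ℝ, 0 < κ ∧ ∃ c : ℝ, 0 < c ∧ ∃ D : ℕ,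
        ∀ δ : ℝ, 0 < δ → ∃ B : ℕ, ∀ᶠ X : ℕ in atTop, ∀ Y : ℕ, (X : ℝ) ^ θ ≤ Y → 2 * Y ≤ X →
          ∀ χ : ℕ → Fin K, ∃ j : Fin K, κ * Y / Real.log X ^ 3 ≤
            N {m | Good {n | n ∈ Al a M n₀ r ∧ χ n = j} 3 l (Real.log X ^ D) c δ B X Y m}
              X (X + Y)) := by
  have hc : ({0, a, 6} : Finset ℕ).card = 3 := by rcases ha with rfl | rfl <;> rfl
  have hcop' : ∀ h ∈ ({0, a, 6} : Finset ℕ), Nat.Coprime (n₀ + h) M := by
    have h1 := Nat.Coprime.coprime_mul_right hcop
    have h2 := Nat.Coprime.coprime_mul_left hcop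
    have h3 := Nat.Coprime.coprime_mul_right h1
    have h4 := Nat.Coprime.coprime_mul_left h1
    intro h hh
    simp only [mem_insert, mem_singleton] at hh
    rcases hh with rfl | rfl | rfl
    · exact h3
    · exact h4
    · exact h2
  obtain ⟨r1, hr1, h1⟩ := Pool.Agent.TH977.PW.final_prog {0, a, 6} ⟨0, by simp⟩ M n₀ hM hcop'
    (adm a ha) (fun r => R a r) (fun r => Al a M n₀ r) 3 hc (fun r m _ hm => hm)
    (fun r _ => Eventually.of_forall (fun m h0 h1 h2 => ⟨h1, h0, h2⟩)) θ hθ hθ1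
  obtain ⟨r2, hr2, h2⟩ := Pool.Agent.Y677.RSZ.narrow_prog {0, a, 6} ⟨0, by simp⟩ M n₀ hM hcop'
    (adm a ha) (fun r => R a r) (fun r => Al a M n₀ r) 3 hc (fun r m _ hm => hm)
    (fun r _ => Eventually.of_forall (fun m h0 h1 h2 => ⟨h1, h0, h2⟩)) θ hθ hθ1
  refine ⟨max r1 r2, hr1.trans (le_max_left _ _), fun r hr => ?_⟩
  obtain ⟨hlow, hreg⟩ := h1 r ((le_max_left _ _).trans hr)
  obtain ⟨-, hnar⟩ := h2 r ((le_max_right _ _).trans hr)
  have hcomb := Pool.Agent.V7H96.NR.comb (R a r) 3 θ hreg hnar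
  refine ⟨?_, hlow, hcomb, ?_⟩
  · intro n hn hna hn6 h hh q hq hdv
    have hp : (n + h).Prime := by
      simp only [mem_insert, mem_singleton] at hh
      rcases hh with rfl | rfl | rfl
      · exact hn
      · exact hna
      · exact hn6
    rw [(Nat.prime_dvd_prime_iff_eq hq hp).1 hdv]
    exact Pool.Agent.TH977.PW.rpow_lt_of_le r n (n + h)
      (hr1.trans ((le_max_left _ _).trans hr)) hn.two_le (by omega)
  · intro l hl K hK
    obtain ⟨κ, hκ, hlow⟩ := hlow
    have hKr : (0 : ℝ) < K := by exact_mod_cast hK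
    obtain ⟨c, hc0, D, hD⟩ := hcomb l hl (κ / (2 * K)) (by positivity)
    refine ⟨κ / (2 * K), by positivity, c, hc0, D, fun δ hδ => ?_⟩
    obtain ⟨B, hB⟩ := hD δ hδ
    refine ⟨B, ?_⟩
    have h := Pool.Agent.V7H96.NR.colour (R a r) (Al a M n₀ r) (fun m hm => hm.1) 3
      (fun X Y => (X : ℝ) ^ θ ≤ Y ∧ 2 * Y ≤ X) κ hκ
      (by
        filter_upwards [hlow] with X hX Y hP
        exact hX Y hP.1 (by have := hP.2; omega))
      l D c δ B K hK (κ / (2 * K)) le_rfl
      (by
        filter_upwards [hB] with X hX Y hP A hA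
        exact hX Y hP.1 hP.2 A hA)
    filter_upwards [h] with X hX Y h1 h2 χ
    exact hX Y ⟨h1, h2⟩ χ

end Pool.Agent.Results.MP_dddec0_nt.NarrowRegularColouringsH96
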